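import Pool.Agent.D0H81.YN.Stm
import Pool.Agent.Q73.AD.YAf

/-!
# YN package SC: the local theorem, scaled (helper33)
-/

set_option autoImplicit false
open MeasureTheory Filter Topology Complex Metric
open scoped ContDiff ENNReal

namespace Pool.Agent.D0H33.YN

open Pool.Agent.D0H81.YN
open Pool.Agent.Q73.NL (lap)
open Pool.Agent.Q73.AD (sn afc_mem afc_sn afc_fderiv afc_contDiffAt afc_lap)

theorem t_SC (h : S_LT) : S_SC := by
  obtain ⟨C, hC, h⟩ := h
  refine ⟨C, hC, ?_⟩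
  intro lam L σ p ρ φ hlam hL hσ hσ1 hle hsol hpos
  have hα : ‖(σ : ℂ)‖ = σ := by rw [Complex.norm_real, Real.norm_eq_abs, abs_of_pos hσ]
  have hα0 : (σ : ℂ) ≠ 0 := by exact_mod_cast hσ.ne'
  have hlh : 0 ≤ lam * σ ^ 2 := by positivity
  have hmem : ∀ y ∈ closedBall (0 : ℂ) 16, p + σ * y ∈ closedBall p (16 * σ) := by
    intro y hy
    have := (afc_mem (p := p) (c := 0) (r := 16) hα0).2 hy
    rwa [mul_zero, add_zero, hα, mul_comm] at this
  have hB : SolB (fun y : ℂ => lam * σ ^ 2 * ρ (p + σ * y)) (fun y : ℂ => φ (p + σ * y)) := by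
    refine ⟨?_, ?_, ?_, ?_, ?_, ?_⟩
    · intro y hy
      exact afc_contDiffAt _ _ _ _ _ (hsol _ (hmem y hy)).1
    · intro y hy
      exact contDiffAt_const.mul (afc_contDiffAt _ _ _ _ _ (hsol _ (hmem y hy)).2.1)
    · intro y hy
      exact mul_nonneg hlh (hsol _ (hmem y hy)).2.2.1
    · intro y hy
      calc lam * σ ^ 2 * ρ (p + σ * y) ≤ lam * σ ^ 2 * L :=
            mul_le_mul_of_nonneg_left (hsol _ (hmem y hy)).2.2.2.1 hlh
        _ = lam * L * σ ^ 2 := by ring
        _ ≤ 1 := hle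
    · intro y hy
      obtain ⟨a1, a2, a3, a4, a5, a6⟩ := hsol _ (hmem y hy)
      have e1 := fderiv_const_smul_field (𝕜 := ℝ) (f := fun y : ℂ => ρ (p + σ * y)) (lam * σ ^ 2)
      have e2 : fderiv ℝ (fun y : ℂ => lam * σ ^ 2 * ρ (p + σ * y)) y =
          (lam * σ ^ 2) • fderiv ℝ (fun y : ℂ => ρ (p + σ * y)) y := congrFun e1 y
      rw [e2, norm_smul, Real.norm_eq_abs, abs_of_nonneg hlh]
      have h5 := afc_fderiv ρ p σ y (a2.differentiableAt (by norm_num))
      have h6 : ‖fderiv ℝ (fun y : ℂ => ρ (p + σ * y)) y‖ ≤ 1 * L := by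
        refine h5.trans ?_
        rw [hα]
        exact mul_le_mul hσ1 a5 (norm_nonneg _) zero_le_one
      calc _ ≤ lam * σ ^ 2 * (1 * L) := mul_le_mul_of_nonneg_left h6 hlh
        _ = lam * L * σ ^ 2 := by ring
        _ ≤ 1 := hle
    · intro y hy
      obtain ⟨a1, a2, a3, a4, a5, a6⟩ := hsol _ (hmem y hy)
      have := afc_lap φ p σ y (a1.of_le (by norm_cast))
      rw [this, hα]
      calc _ = σ ^ 2 * (lap φ (p + σ * y) + lam * ρ (p + σ * y) * φ (p + σ * y)) := by ring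
        _ = 0 := by rw [a6, mul_zero]
  have hp : ∀ (z : ℂ) (r : ℝ), 0 < r → closedBall z r ⊆ closedBall 0 16 →
      0 < sn (fun y : ℂ => φ (p + σ * y)) (closedBall z r) := by
    intro z r hr hsub
    rw [afc_sn φ hα0, hα]
    refine hpos _ _ (by positivity) ?_
    intro w hw
    have e : w = p + σ * ((w - p) / σ) := by field_simp; ring
    rw [e]
    refine hmem _ (hsub ?_)
    refine (afc_mem (p := p) hα0).1 ?_
    rw [← e, hα]
    exact hw
  have h1 := h _ _ hB hp
  rw [afc_sn φ hα0, afc_sn φ hα0, hα, mul_zero, add_zero, mul_one, mul_comm σ 16] at h1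
  have hL : LipschitzWith (Real.toNNReal σ) (fun y : ℂ => p + σ * y) := by
    refine LipschitzWith.of_dist_le_mul fun x y => ?_
    rw [dist_eq_norm, dist_eq_norm, Real.coe_toNNReal _ hσ.le]
    have : p + σ * x - (p + σ * y) = σ * (x - y) := by ring
    rw [this, norm_mul, hα]
  have himg : {z | z ∈ closedBall p σ ∧ φ z = 0} =
      (fun y : ℂ => p + σ * y) '' {z | z ∈ closedBall (0 : ℂ) 1 ∧ φ (p + σ * z) = 0} := by
    ext w
    constructor
    · rintro ⟨hw, hw0⟩
      have e : w = p + σ * ((w - p) / σ) := by field_simp; ring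
      refine ⟨(w - p) / σ, ⟨?_, ?_⟩, e.symm⟩
      · refine (afc_mem (p := p) (c := 0) (r := 1) hα0).1 ?_
        rw [← e, hα, mul_zero, add_zero, mul_one]
        exact hw
      · rw [← e]
        exact hw0
    · rintro ⟨y, ⟨hy, hy0⟩, rfl⟩
      refine ⟨?_, hy0⟩
      have := (afc_mem (p := p) (c := 0) (r := 1) hα0).2 hy
      rwa [mul_zero, add_zero, hα, mul_one] at this
  rw [himg]
  refine (hL.hausdorffMeasure_image_le zero_le_one _).trans ?_
  rw [ENNReal.rpow_one]
  refine (mul_le_mul_right h1 _).trans ?_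
  have e3 : ((Real.toNNReal σ : NNReal) : ℝ≥0∞) = ENNReal.ofReal σ := rfl
  rw [e3, ← ENNReal.ofReal_mul hσ.le]
  refine ENNReal.ofReal_le_ofReal (le_of_eq ?_)
  ring

end Pool.Agent.D0H33.YN
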