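import Pool.Agent.D0H81.YN.Stm
import Pool.Agent.Q73.AD.TG1
import Pool.Agent.Helper904_QS.J
import Pool.Agent.Helper904_QS.KER

/-!
# YN package SM: no zeros for small eigenvalues (helper33)
-/

set_option autoImplicit false
open MeasureTheory Filter Topology Complex Metric
open scoped ContDiff ENNReal

namespace Pool.Agent.D0H33.YN

open Pool.Agent.D0H81.YN
open Pool.Agent.Q73.NL (dx dy lap)
open Pool.Agent.Q73.AD (sn Atl Eig eig_cont)
open Pool.Agent.Helper904_QS (chi Phi)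
open Pool.Agent.Helper904_QS.PJ (t_J)
open Pool.Agent.Helper904_QS.PKER (t_KER t_INT)

/-- the Laplacian is local -/
theorem lap_congr {f g : ℂ → ℝ} {z : ℂ} (h : f =ᶠ[𝓝 z] g) : lap f z = lap g z := by
  have h1 : dx f =ᶠ[𝓝 z] dx g := by
    filter_upwards [h.eventuallyEq_nhds] with y hy
    simp only [dx, hy.fderiv_eq]
  have h2 : dy f =ᶠ[𝓝 z] dy g := by
    filter_upwards [h.eventuallyEq_nhds] with y hy
    simp only [dy, hy.fderiv_eq]
  unfold lap
  have e1 : dx (dx f) z = dx (dx g) z := by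
    show fderiv ℝ (dx f) z 1 = fderiv ℝ (dx g) z 1
    rw [h1.fderiv_eq]
  have e2 : dy (dy f) z = dy (dy g) z := by
    show fderiv ℝ (dy f) z I = fderiv ℝ (dy g) z I
    rw [h2.fderiv_eq]
  rw [e1, e2]

/-- the Laplacian of a `C²` function is continuous -/
theorem lap_cont {f : ℂ → ℝ} (hf : ContDiff ℝ 2 f) : Continuous (lap f) := by
  have h1 : ContDiff ℝ 1 (fderiv ℝ f) := hf.fderiv_right (by norm_num)
  have h2 : ContDiff ℝ 1 (dx f) := h1.clm_apply contDiff_const
  have h3 : ContDiff ℝ 1 (dy f) := h1.clm_apply contDiff_const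
  have h4 : Continuous (fderiv ℝ (dx f)) := h2.continuous_fderiv (by norm_num)
  have h5 : Continuous (fderiv ℝ (dy f)) := h3.continuous_fderiv (by norm_num)
  exact (h4.clm_apply continuous_const).add (h5.clm_apply continuous_const)

/-- Harnack's inequality for nonnegative functions with small Laplacian -/
theorem harn {w : ℂ → ℝ} {z₀ y z : ℂ} {r Λ : ℝ} (hr : 0 < r) (hr1 : r ≤ 1) (hΛ : 0 ≤ Λ)
    (hw : ∀ x ∈ ball z₀ (8 * r), ContDiffAt ℝ 2 w x ∧ 0 ≤ w x ∧ |lap w x| ≤ Λ)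
    (hy : y ∈ ball z₀ r) (hz : z ∈ ball z₀ r) : w y ≤ 145 * (w z + Λ) := by
  let c : ContDiffBump z₀ := ⟨7 * r, 15 / 2 * r, by linarith, by linarith⟩
  have hcin : ∀ x ∈ ball z₀ (7 * r), c =ᶠ[𝓝 x] fun _ => 1 := fun x hx =>
    c.eventuallyEq_one_of_mem_ball hx
  have hcs : tsupport c ⊆ ball z₀ (8 * r) := by
    rw [c.tsupport_eq]
    exact closedBall_subset_ball (by show 15 / 2 * r < 8 * r; linarith)
  set f : ℂ → ℝ := fun x => c x * w x with hf
  have hfC : ContDiff ℝ 2 f := by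
    rw [contDiff_iff_contDiffAt]
    intro x
    by_cases hx : x ∈ tsupport c
    · exact c.contDiff.contDiffAt.mul (hw x (hcs hx)).1
    · have h1 : (c : ℂ → ℝ) =ᶠ[𝓝 x] 0 := notMem_tsupport_iff_eventuallyEq.1 hx
      have h2 : f =ᶠ[𝓝 x] fun _ => (0 : ℝ) := by
        filter_upwards [h1] with t ht
        simp only [hf, ht, Pi.zero_apply, zero_mul]
      exact contDiffAt_const.congr_of_eventuallyEq h2
  have hf0 : ∀ x, 0 ≤ f x := by
    intro x
    by_cases hx : x ∈ tsupport c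
    · exact mul_nonneg c.nonneg (hw x (hcs hx)).2.1
    · have : c x = 0 := image_eq_zero_of_notMem_tsupport hx
      simp only [hf, this, zero_mul, le_refl]
  have hfw : ∀ x ∈ ball z₀ (7 * r), f =ᶠ[𝓝 x] w := by
    intro x hx
    filter_upwards [hcin x hx] with t ht
    simp only [hf, ht, one_mul]
  have hlap : ∀ x ∈ ball z₀ (7 * r), |lap f x| ≤ Λ := by
    intro x hx
    rw [lap_congr (hfw x hx)]
    exact (hw x (ball_subset_ball (by linarith) hx)).2.2
  have hlc : Continuous (lap f) := lap_cont hfC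
  have hcong : ∀ (a : ℂ) (R : ℝ), 0 < R → ball a R ⊆ ball z₀ (7 * r) →
      |∫ x, Phi R (x - a) * lap f x| ≤ Real.pi * R ^ 2 / 6 * Λ := by
    intro a R hR hsub
    obtain ⟨-, -, -, -, -, -, -, k8, k9, k10, -, -, k13, -⟩ := t_KER R hR
    have hi := (t_INT (lap f) a R hlc hR).2
    have hi2 : Integrable (fun x => Phi R (x - a) * Λ) := by
      have := k8.comp_sub_right a
      exact this.mul_const _
    have e : ∫ x, Phi R (x - a) * Λ = Real.pi * R ^ 2 / 6 * Λ := by
      rw [integral_mul_const, integral_sub_right_eq_self (fun x => Phi R x) a, k13]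
    rw [← e, ← Real.norm_eq_abs]
    refine norm_integral_le_of_norm_le hi2 (Eventually.of_forall fun x => ?_)
    rw [Real.norm_eq_abs, abs_mul, abs_of_nonneg (k9 _)]
    by_cases hx : ‖x - a‖ < R
    · refine mul_le_mul_of_nonneg_left (hlap x (hsub ?_)) (k9 _)
      rw [mem_ball, dist_eq_norm]
      exact hx
    · rw [k10 _ (not_lt.1 hx), zero_mul, zero_mul]
  have hJy := t_J f y r hfC hr
  have hJz := t_J f z (6 * r) hfC (by linarith)
  rw [mem_ball, dist_eq_norm] at hy hz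
  have hys : ball y r ⊆ ball z₀ (7 * r) := by
    refine ball_subset_ball' ?_
    rw [dist_eq_norm]
    linarith
  have hzs : ball z (6 * r) ⊆ ball z₀ (7 * r) := by
    refine ball_subset_ball' ?_
    rw [dist_eq_norm]
    linarith
  have hPy := abs_le.1 (hcong y r hr hys)
  have hPz := abs_le.1 (hcong z (6 * r) (by linarith) hzs)
  have hchi : ∫ x, chi r (x - y) * f x ≤ 48 * ∫ x, chi (6 * r) (x - z) * f x := by
    obtain ⟨-, k2, k3, k4, -⟩ := t_KER r hr
    obtain ⟨-, l2, -, -, l5, -⟩ := t_KER (6 * r) (by linarith)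
    rw [← integral_const_mul]
    refine integral_mono (t_INT f y r hfC.continuous hr).1
      ((t_INT f z (6 * r) hfC.continuous (by linarith)).1.const_mul _) fun x => ?_
    by_cases hx : ‖x - y‖ < r
    · have h1 : ‖x - z‖ ≤ 6 * r / 2 := by
        have : x - z = (x - y) + (y - z₀) - (z - z₀) := by ring
        rw [this]
        refine (norm_sub_le _ _).trans ?_
        have := norm_add_le (x - y) (y - z₀)
        linarith
      have h2 := l5 _ h1
      have h3 := k3 (x - y)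
      have h4 : chi r (x - y) ≤ 48 * chi (6 * r) (x - z) := by
        refine h3.trans ?_
        have e : (4 : ℝ) / r ^ 2 = 48 * (3 / (6 * r) ^ 2) := by
          field_simp
          norm_num
        rw [e]
        linarith
      calc chi r (x - y) * f x ≤ 48 * chi (6 * r) (x - z) * f x :=
            mul_le_mul_of_nonneg_right h4 (hf0 x)
        _ = 48 * (chi (6 * r) (x - z) * f x) := by ring
    · simp only [k4 _ (not_lt.1 hx), zero_mul]
      have := mul_nonneg (l2 (x - z)) (hf0 x)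
      positivity
  have hfy : f y = w y := (hfw y (by rw [mem_ball, dist_eq_norm]; linarith)).eq_of_nhds
  have hfz : f z = w z := (hfw z (by rw [mem_ball, dist_eq_norm]; linarith)).eq_of_nhds
  rw [hfy] at hJy
  rw [hfz] at hJz
  have hpi := Real.pi_pos
  have hwz : 0 ≤ w z := (hw z (by rw [mem_ball, dist_eq_norm]; linarith)).2.1
  have h1 : 2 * Real.pi * w y ≤ 48 * (2 * Real.pi * w z + Real.pi * (6 * r) ^ 2 / 6 * Λ) +
      Real.pi * r ^ 2 / 6 * Λ := by
    have := hPy.1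
    have := hPz.2
    change 2 * Real.pi * w y = (∫ x, chi r (x - y) * f x) - ∫ x, Phi r (x - y) * lap f x at hJy
    change 2 * Real.pi * w z = (∫ x, chi (6 * r) (x - z) * f x) -
      ∫ x, Phi (6 * r) (x - z) * lap f x at hJz
    linarith
  have hr2 : r ^ 2 ≤ 1 := by nlinarith
  have h2 : 2 * Real.pi * w y ≤ 2 * Real.pi * (145 * (w z + Λ)) := by
    refine h1.trans ?_
    have h3 : r ^ 2 * Λ ≤ 1 * Λ := mul_le_mul_of_nonneg_right hr2 hΛ
    have h4 : Real.pi * (r ^ 2 * Λ) ≤ Real.pi * (1 * Λ) := mul_le_mul_of_nonneg_left h3 hpi.le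
    have h5 : 0 ≤ Real.pi * w z := mul_nonneg hpi.le hwz
    have h6 : 0 ≤ Real.pi * Λ := mul_nonneg hpi.le hΛ
    nlinarith
  exact le_of_mul_le_mul_left h2 (by positivity)

theorem lap_one_sub (g : ℂ → ℝ) (z : ℂ) : lap (fun z => 1 - g z) z = -lap g z := by
  have h1 : dx (fun z => 1 - g z) = fun z => -dx g z := by
    funext z
    simp only [dx, fderiv_const_sub, ContinuousLinearMap.neg_apply]
  have h2 : dy (fun z => 1 - g z) = fun z => -dy g z := by
    funext z
    simp only [dy, fderiv_const_sub, ContinuousLinearMap.neg_apply]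
  have h3 : dx (fun z => -dx g z) z = -dx (dx g) z := by
    show fderiv ℝ (fun z => -dx g z) z 1 = -fderiv ℝ (dx g) z 1
    rw [fderiv_fun_neg, ContinuousLinearMap.neg_apply]
  have h4 : dy (fun z => -dy g z) z = -dy (dy g) z := by
    show fderiv ℝ (fun z => -dy g z) z I = -fderiv ℝ (dy g) z I
    rw [fderiv_fun_neg, ContinuousLinearMap.neg_apply]
  unfold lap
  rw [h1, h2, h3, h4]
  ring

universe u v

/-- comparison of the values at two points -/
def Rel {M : Type u} {ι : Type v} (U : ι → Set ℂ) (φ : ι → ℂ → M) (ρ : ι → ℂ → ℝ) (x y : M)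
    (C : ℝ) : Prop :=
  ∀ (lam : ℝ) (f : M → ℝ), 0 ≤ lam → Eig U φ ρ lam f → (∀ t, |f t| ≤ 1) →
    1 - f y ≤ C * ((1 - f x) + lam)

theorem Rel.mono {M : Type u} {ι : Type v} {U : ι → Set ℂ} {φ : ι → ℂ → M} {ρ : ι → ℂ → ℝ} {x y : M}
    {C D : ℝ} (h : Rel U φ ρ x y C) (hCD : C ≤ D) : Rel U φ ρ x y D := by
  intro lam f hl hE hf
  refine (h lam f hl hE hf).trans (mul_le_mul_of_nonneg_right hCD ?_)
  have := (abs_le.1 (hf x)).2
  linarith

theorem Rel.trans {M : Type u} {ι : Type v} {U : ι → Set ℂ} {φ : ι → ℂ → M} {ρ : ι → ℂ → ℝ}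
    {x y z : M} {C D : ℝ} (h : Rel U φ ρ x y C) (h' : Rel U φ ρ y z D) (hD : 0 ≤ D) :
    Rel U φ ρ x z (D * (C + 1)) := by
  intro lam f hl hE hf
  have h1 := h lam f hl hE hf
  have h2 := h' lam f hl hE hf
  have h3 := (abs_le.1 (hf x)).2
  refine h2.trans ?_
  rw [mul_assoc]
  refine mul_le_mul_of_nonneg_left ?_ hD
  linarith

/-- the local step -/
theorem rel_loc {M : Type u} {ι : Type v} [MetricSpace M] {U : ι → Set ℂ} {φ : ι → ℂ → M}
    {ρ : ι → ℂ → ℝ} (hA : Atl U φ ρ) (x : M) :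
    ∃ V ∈ 𝓝 x, ∃ C : ℝ, 1 ≤ C ∧ ∀ y ∈ V, ∀ z ∈ V, Rel U φ ρ y z C := by
  obtain ⟨i, z₀, hz₀, rfl⟩ := hA.cover x
  obtain ⟨r₁, hr₁, hr₁U⟩ := Metric.isOpen_iff.1 (hA.dom i) z₀ hz₀
  set r : ℝ := min 1 (r₁ / 16) with hr
  have hr0 : 0 < r := lt_min one_pos (by linarith)
  have hr1 : r ≤ 1 := min_le_left _ _
  have hr2 : 8 * r ≤ r₁ / 2 := by
    have := min_le_right 1 (r₁ / 16)
    linarith
  have hcb : closedBall z₀ (r₁ / 2) ⊆ U i := (closedBall_subset_ball (by linarith)).trans hr₁U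
  have hc1 : ContinuousOn (ρ i) (closedBall z₀ (r₁ / 2)) := (hA.dens i).continuousOn.mono hcb
  obtain ⟨B, hB⟩ := (isCompact_closedBall z₀ (r₁ / 2)).exists_bound_of_continuousOn hc1
  set L : ℝ := max 1 B with hL
  have hL1 : 1 ≤ L := le_max_left _ _
  have hLρ : ∀ y ∈ closedBall z₀ (r₁ / 2), |ρ i y| ≤ L := fun y hy => (hB y hy).trans (le_max_right _ _)
  have h8 : ball z₀ (8 * r) ⊆ closedBall z₀ (r₁ / 2) :=
    (ball_subset_ball hr2).trans ball_subset_closedBall
  have hsub : ball z₀ r ⊆ U i := (ball_subset_ball (by linarith)).trans (h8.trans hcb)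
  refine ⟨φ i '' ball z₀ r, (hA.opn i _ isOpen_ball hsub).mem_nhds ⟨z₀, mem_ball_self hr0, rfl⟩,
    145 * L, by linarith, ?_⟩
  rintro _ ⟨y, hy, rfl⟩ _ ⟨z, hz, rfl⟩ lam f hlam hE hf
  have hw : ∀ x ∈ ball z₀ (8 * r), ContDiffAt ℝ 2 (fun z => 1 - f (φ i z)) x ∧
      0 ≤ 1 - f (φ i x) ∧ |lap (fun z => 1 - f (φ i z)) x| ≤ lam * L := by
    intro x hx
    have hxU : x ∈ U i := hcb (h8 hx)
    refine ⟨contDiffAt_const.sub ?_, ?_, ?_⟩
    · exact ((hE i).1.contDiffAt ((hA.dom i).mem_nhds hxU)).of_le (by norm_cast)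
    · have := (abs_le.1 (hf (φ i x))).2
      linarith
    · rw [lap_one_sub, abs_neg]
      have h1 : lap (fun z => f (φ i z)) x = -(lam * ρ i x * f (φ i x)) := by
        have := (hE i).2 x hxU
        linarith
      rw [h1, abs_neg, abs_mul, abs_mul, abs_of_nonneg hlam, mul_assoc]
      refine mul_le_mul_of_nonneg_left ?_ hlam
      calc |ρ i x| * |f (φ i x)| ≤ L * 1 :=
            mul_le_mul (hLρ x (h8 hx)) (hf _) (abs_nonneg _) (by linarith)
        _ = L := mul_one L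
  have h1 := harn hr0 hr1 (mul_nonneg hlam (by linarith)) hw hz hy
  have h2 : 0 ≤ 1 - f (φ i y) := by
    have := (abs_le.1 (hf (φ i y))).2
    linarith
  nlinarith

theorem t_SM : S_SM.{u, v} := by
  intro M ι _ _ _ U φ ρ hA hρ
  choose V hV K hK1 hK using fun x => rel_loc hA x
  -- all pairs of points are related
  have hall : ∀ x y : M, ∃ C : ℝ, 1 ≤ C ∧ Rel U φ ρ x y C := by
    intro x
    have hxx : ∃ C : ℝ, 1 ≤ C ∧ Rel U φ ρ x x C :=
      ⟨K x, hK1 x, hK x x (mem_of_mem_nhds (hV x)) x (mem_of_mem_nhds (hV x))⟩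
    have hstep : ∀ y, ∀ a ∈ V y, ∀ b ∈ V y, (∃ C : ℝ, 1 ≤ C ∧ Rel U φ ρ x a C) →
        ∃ C : ℝ, 1 ≤ C ∧ Rel U φ ρ x b C := by
      rintro y a ha b hb ⟨C, hC, hR⟩
      refine ⟨K y * (C + 1), ?_, hR.trans (hK y a ha b hb) (by linarith [hK1 y])⟩
      have := hK1 y
      nlinarith
    have hcl : IsClopen {y : M | ∃ C : ℝ, 1 ≤ C ∧ Rel U φ ρ x y C} := by
      constructor
      · rw [← isOpen_compl_iff, isOpen_iff_mem_nhds]
        intro y hy
        refine mem_of_superset (hV y) fun b hb hb' => hy ?_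
        exact hstep y b hb y (mem_of_mem_nhds (hV y)) hb'
      · rw [isOpen_iff_mem_nhds]
        intro y hy
        refine mem_of_superset (hV y) fun b hb => ?_
        exact hstep y y (mem_of_mem_nhds (hV y)) b hb hy
    have := hcl.eq_univ ⟨x, hxx⟩
    intro y
    have h1 : y ∈ {y : M | ∃ C : ℝ, 1 ≤ C ∧ Rel U φ ρ x y C} := by
      rw [this]
      exact Set.mem_univ y
    exact h1
  choose D hD1 hD using hall
  -- uniformly
  obtain ⟨t, -, ht⟩ := (isCompact_univ (X := M)).elim_nhds_subcover V fun x _ => hV x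
  obtain ⟨C, hC1, hC⟩ : ∃ C : ℝ, 1 ≤ C ∧ ∀ x y, Rel U φ ρ x y C := by
    set A : ℝ := ∑ a ∈ t, K a with hA'
    set B : ℝ := ∑ a ∈ t, ∑ b ∈ t, D a b with hB'
    have hA0 : ∀ a ∈ t, K a ≤ A := fun a ha =>
      Finset.single_le_sum (f := K) (fun b _ => by linarith [hK1 b]) ha
    have hB0 : ∀ a ∈ t, ∀ b ∈ t, D a b ≤ B := fun a ha b hb =>
      (Finset.single_le_sum (f := D a) (fun c _ => by linarith [hD1 a c]) hb).trans
        (Finset.single_le_sum (f := fun a => ∑ b ∈ t, D a b)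
          (fun c _ => Finset.sum_nonneg fun d _ => by linarith [hD1 c d]) ha)
    refine ⟨max 1 (A * (B * (A + 1) + 1)), le_max_left _ _, fun x y => ?_⟩
    obtain ⟨a, ha, hxa⟩ : ∃ a ∈ t, x ∈ V a := by
      have := ht (Set.mem_univ x)
      simpa using this
    obtain ⟨b, hb, hyb⟩ : ∃ b ∈ t, y ∈ V b := by
      have := ht (Set.mem_univ y)
      simpa using this
    have hA1 : 1 ≤ A := (hK1 a).trans (hA0 a ha)
    have hB1 : 1 ≤ B := (hD1 a b).trans (hB0 a ha b hb)
    have h1 := (hK a x hxa a (mem_of_mem_nhds (hV a))).mono (hA0 a ha)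
    have h2 := (hD a b).mono (hB0 a ha b hb)
    have h3 := (hK b b (mem_of_mem_nhds (hV b)) y hyb).mono (hA0 b hb)
    exact ((h1.trans h2 (by linarith)).trans h3 (by linarith)).mono (le_max_right _ _)
  refine ⟨1 / C, by positivity, ?_⟩
  intro lam f hlam hlt hE hne x hx
  have hcont : Continuous f := eig_cont hA hE
  obtain ⟨x₀, -, hx₀⟩ := (isCompact_univ (X := M)).exists_isMaxOn ⟨x, Set.mem_univ x⟩
    hcont.abs.continuousOn
  have hmax : ∀ t, |f t| ≤ |f x₀| := fun t => hx₀ (Set.mem_univ t)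
  have hS : 0 < |f x₀| := by
    obtain ⟨t, ht⟩ := hne
    exact lt_of_lt_of_le (abs_pos.2 ht) (hmax t)
  have hS0 : f x₀ ≠ 0 := abs_pos.1 hS
  have hE' : Eig U φ ρ lam (fun t => (f x₀)⁻¹ * f t) := by
    intro i
    refine ⟨contDiffOn_const.mul (hE i).1, fun z hz => ?_⟩
    have h1 := (hE i).2 z hz
    rw [Pool.Agent.Q73.AD.lap_const_mul' (f x₀)⁻¹ (fun y => f (φ i y))]
    calc _ = (f x₀)⁻¹ * (lap (fun y => f (φ i y)) z + lam * ρ i z * f (φ i z)) := by ring
      _ = 0 := by rw [h1, mul_zero]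
  have h2 := hC x₀ x lam _ hlam hE' (fun t => by
    rw [abs_mul, abs_inv, inv_mul_le_iff₀ hS, mul_one]
    exact hmax t)
  simp only [hx, mul_zero, sub_zero, inv_mul_cancel₀ hS0, sub_self, zero_add] at h2
  have h3 : C * lam < 1 := by
    rw [lt_div_iff₀ (by linarith)] at hlt
    linarith
  linarith

end Pool.Agent.D0H33.YN
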